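import Pool.Agent.Helper74.FP.Goals
import Pool.Agent.Helper52.Wq2.Minor

set_option autoImplicit false

namespace Pool.Agent.Helper36.FP

open Pool.Agent.Helper52.Wq2 Pool.Agent.Helper61.NW Pool.Agent.Helper74.FP

universe u

/-- Bundled pairs. -/
structure GS : Type (u + 1) where
  car : Type u
  grp : Group car
  set : Set car

/-- The graph. -/
def GS.gr (x : GS.{u}) : SimpleGraph x.car := @cay x.car x.grp x.set

/-- The relation. -/
def rel (x y : GS.{u}) : Prop := Mn x.gr y.gr

instance : IsPreorder GS.{u} rel where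
  refl _ := Mn.refl _
  trans _ _ _ h h' := Mn.trans h h'

theorem f6 : F6Stmt.{u} := by
  intro P hP k A _ S hS hPS
  have h1 : ({x : GS.{u} | @IsGen x.car x.grp x.set ∧ @P x.car x.grp x.set}).PartiallyWellOrderedOn
      rel := by
    rw [Set.partiallyWellOrderedOn_iff_exists_lt]
    intro f hf
    exact @hP (fun n => (f n).car) (fun n => (f n).grp) (fun n => (f n).set)
      (fun n => (hf n).1) (fun n => (hf n).2)
  have h2 := h1.partiallyWellOrderedOn_sublistForall₂
  rw [Set.partiallyWellOrderedOn_iff_exists_lt] at h2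
  obtain ⟨m, n, hmn, h3⟩ := h2 (fun n => List.ofFn (fun l : Fin (k n) =>
    (⟨A n l, inferInstance, S n l⟩ : GS.{u}))) (by
      intro n x hx
      rw [List.mem_ofFn] at hx
      obtain ⟨l, rfl⟩ := hx
      exact ⟨hS n l, hPS n l⟩)
  refine ⟨m, n, hmn, ?_⟩
  rw [List.sublistForall₂_iff] at h3
  obtain ⟨L, h4, h5⟩ := h3
  rw [List.forall₂_iff_get] at h4
  rw [List.sublist_iff_exists_fin_orderEmbedding_get_eq] at h5
  obtain ⟨g, hg⟩ := h5
  obtain ⟨h6, h7⟩ := h4
  have hm : (List.ofFn (fun l : Fin (k m) => (⟨A m l, inferInstance, S m l⟩ : GS.{u}))).length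
    = k m := List.length_ofFn
  have hn : (List.ofFn (fun l : Fin (k n) => (⟨A n l, inferInstance, S n l⟩ : GS.{u}))).length
    = k n := List.length_ofFn
  refine ⟨fun l => Fin.cast hn (g (Fin.cast (hm.symm.trans h6) l)), ?_, ?_⟩
  · intro a b hab
    have h8 := g.injective (Fin.cast_injective _ hab)
    exact Fin.cast_injective _ h8
  · intro l
    have h8 := h7 l.1 (by rw [hm]; exact l.2) (by rw [← h6, hm]; exact l.2)
    have h9 := hg (Fin.cast (hm.symm.trans h6) l)
    have h10 : L.get ⟨l.1, by rw [← h6, hm]; exact l.2⟩ =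
      L.get (Fin.cast (hm.symm.trans h6) l) := rfl
    rw [h10, h9, List.get_ofFn, List.get_ofFn] at h8
    exact h8

end Pool.Agent.Helper36.FP
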